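import Mathlib

/-!
# Exact membership in the theta body has no short certificates: the definitions
-/

open Turing
open scoped InnerProductSpace

namespace Pool.Agent.Helper95.Cert.NoShortCertificates

/-! ### Computability in polynomial time -/

/-- Types whose elements are coded by strings of Booleans. -/
class Coded (α : Type) where
  /-- the code -/
  code : α → List Bool

export Coded (code)

/-- The code of a pair of strings: the symbols of the first string, each preceded by `true`, then
`false`, then the second string. -/
def pairCode (u v : List Bool) : List Bool := u.flatMap (fun a => [true, a]) ++ false :: v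

/-- A Boolean is coded by itself. -/
instance instCodedBool : Coded Bool := ⟨fun b => [b]⟩

/-- A natural number that is a size or the index of a vertex is coded in unary. (Other numbers are
represented by their binary digits, see `bval` below.) -/
instance instCodedNat : Coded ℕ := ⟨fun n => List.replicate n true⟩

/-- The code of a pair. -/
instance instCodedProd {α β : Type} [Coded α] [Coded β] : Coded (α × β) :=
  ⟨fun x => pairCode (code x.1) (code x.2)⟩

/-- The code of a list: `pairCode (code a₁) (pairCode (code a₂) (… []))`. -/
instance instCodedList {α : Type} [Coded α] : Coded (List α) :=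
  ⟨fun l => l.foldr (fun a s => pairCode (code a) s) []⟩

/-- The function `f` is computable in polynomial time by a Turing machine. -/
def PolyTime {α β : Type} [Coded α] [Coded β] (f : α → β) : Prop :=
  Nonempty (TM2ComputableInPolyTime (code : α → List Bool) (code : β → List Bool) f)

/-! ### Numbers in binary -/

/-- The natural number with the given binary digits, least significant digit first. -/
def bval : List Bool → ℕ
  | [] => 0
  | b :: l => (bif b then 1 else 0) + 2 * bval l

/-- Integers in binary: a sign (`true` for nonnegative) and the digits of the absolute value. -/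
abbrev BInt : Type := Bool × List Bool

/-- The integer with a given binary representation. -/
def ival (z : BInt) : ℤ := bif z.1 then (bval z.2 : ℤ) else - (bval z.2 : ℤ)

/-! ### The theta body -/

/-- `Y` witnesses that `x` lies in the theta body. The index `none` stands for the additional
row `0`. -/
def Witness {V : Type} (G : SimpleGraph V) (x : V → ℝ)
    (Y : Matrix (Option V) (Option V) ℝ) : Prop :=
  Y.PosSemidef ∧ Y none none = 1 ∧
    (∀ i, Y none (some i) = x i ∧ Y (some i) (some i) = x i) ∧
    ∀ i j, G.Adj i j → Y (some i) (some j) = 0

/-- The theta body of a graph. -/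
def TH {V : Type} (G : SimpleGraph V) : Set (V → ℝ) := {x | ∃ Y, Witness G x Y}

/-- The graph on `Fin n` whose edges are given by a list of pairs of vertices. -/
def graphOf (n : ℕ) (E : List (ℕ × ℕ)) : SimpleGraph (Fin n) where
  Adj i j := i ≠ j ∧ (((i : ℕ), (j : ℕ)) ∈ E ∨ ((j : ℕ), (i : ℕ)) ∈ E)
  symm := ⟨fun _ _ h => ⟨h.1.symm, h.2.symm⟩⟩
  loopless := ⟨fun _ h => h.1 rfl⟩

/-- The inequality `∑ wᵢ yᵢ ≤ b` holds on the theta body and fails at the point
`(1/8, …, 1/8)`. -/
def Separates {n : ℕ} (G : SimpleGraph (Fin n)) (w : Fin n → ℤ) (b : ℤ) : Prop :=
  (∀ y ∈ TH G, ∑ i, (w i : ℝ) * y i ≤ b) ∧ (b : ℝ) < ∑ i, (w i : ℝ) * (1 / 8)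

/-- The matrix of rational numbers `Y` (given as `q`) witnesses that `(1/8, …, 1/8)` is in the
theta body. -/
def RatWitness {n : ℕ} (G : SimpleGraph (Fin n))
    (q : Matrix (Option (Fin n)) (Option (Fin n)) ℚ) : Prop :=
  Witness G (fun _ => 1 / 8) (q.map fun x => (x : ℝ))

/-- The entry of a list of integers; missing entries are zero. -/
def coef (w : List BInt) (i : ℕ) : ℤ := ival ((w[i]?).getD (true, []))

/-- The position of a row: the row `0` is the first one. -/
def pos {n : ℕ} : Option (Fin n) → ℕ
  | none => 0
  | some i => i + 1

/-- The rational matrix that is given as a list of rows of numerators and denominators; missing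
entries are zero. -/
def matOf (n : ℕ) (m : List (List (BInt × List Bool))) :
    Matrix (Option (Fin n)) (Option (Fin n)) ℚ :=
  fun a b => (ival ((((m[pos a]?).getD [])[pos b]?).getD ((true, []), [])).1 : ℚ) /
    (bval ((((m[pos a]?).getD [])[pos b]?).getD ((true, []), [])).2 : ℚ)

end Pool.Agent.Helper95.Cert.NoShortCertificates
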