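import Pool.Agent.Helper95.Cert.Defs
import Pool.Agent.Helper95.ThetaGap.Gap
import Pool.Agent.Helper95.ThetaGap.Len

/-!
# Exact membership in the theta body has no short certificates: the proof
-/

open Turing
open scoped InnerProductSpace

namespace Pool.Agent.Helper95.Cert.NoShortCertificates

/-! ### Comparison with the definitions of the helper files -/

open Pool.Agent.Helper92 in
lemma th_eq {V : Type} (G : SimpleGraph V) : TH G = Theta.TH G := rfl

open Pool.Agent.Helper92 in
lemma graph_eq (n : ℕ) (E : List (ℕ × ℕ)) : graphOf n E = Theta.graphOf n E := rfl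

/-! ### Lengths of codes -/

lemma length_pairCode (u v : List Bool) :
    (pairCode u v).length = 2 * u.length + 1 + v.length := by
  unfold pairCode
  rw [List.length_append, List.length_cons, List.length_flatMap]
  simp only [List.length_cons, List.length_nil, List.map_const', List.sum_replicate, smul_eq_mul]
  ring

lemma length_code_nat (n : ℕ) : (code n).length = n := List.length_replicate

lemma length_code_pair {α β : Type} [Coded α] [Coded β] (x : α × β) :
    (code x).length = 2 * (code x.1).length + 1 + (code x.2).length :=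
  length_pairCode _ _

lemma length_code_cons {α : Type} [Coded α] (a : α) (l : List α) :
    (code (a :: l)).length = 2 * (code a).length + 1 + (code l).length :=
  length_pairCode _ _

lemma length_le_code {α : Type} [Coded α] (l : List α) : l.length ≤ (code l).length := by
  induction l with
  | nil => simp
  | cons a l ih =>
    rw [length_code_cons, List.length_cons]
    omega

lemma code_le_of_mem {α : Type} [Coded α] {a : α} {l : List α} (h : a ∈ l) :
    (code a).length ≤ (code l).length := by
  induction l with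
  | nil => simp at h
  | cons b l ih =>
    rw [length_code_cons]
    rcases List.mem_cons.1 h with rfl | h
    · omega
    · have := ih h
      omega

lemma code_list_le {α : Type} [Coded α] (B : ℕ) (l : List α) (h : ∀ a ∈ l, (code a).length ≤ B) :
    (code l).length ≤ (2 * B + 1) * l.length := by
  induction l with
  | nil => exact Nat.le_of_eq rfl
  | cons a l ih =>
    rw [length_code_cons, List.length_cons]
    have h1 := h a List.mem_cons_self
    have h2 := ih fun b hb => h b (List.mem_cons_of_mem _ hb)
    calc 2 * (code a).length + 1 + (code l).length ≤ 2 * B + 1 + (2 * B + 1) * l.length := by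
          omega
      _ = (2 * B + 1) * (l.length + 1) := by ring

lemma bval_lt (l : List Bool) : bval l < 2 ^ l.length := by
  induction l with
  | nil => simp [bval]
  | cons b l ih =>
    rw [bval, List.length_cons, pow_succ]
    cases b
    · simp only [cond_false]; omega
    · simp only [cond_true]; omega

open Pool.Agent.Helper92.Theta in
lemma length_code_gadget (C : List Cst) :
    (code (gadget C)).length ≤ 2 * (gadget C).1 + 1 +
      (2 * (3 * (gadget C).1 + 1) + 1) * ((gadget C).1 * (gadget C).1) := by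
  rw [length_code_pair, length_code_nat]
  set n := (gadget C).1 with hn
  have hE : (gadget C).2 = edges (vlist C) := rfl
  have h1 : ∀ a ∈ (gadget C).2, (code a).length ≤ 3 * n + 1 := by
    rintro ⟨i, j⟩ h
    rw [hE] at h
    unfold edges at h
    simp only [List.mem_flatMap, List.mem_range, List.mem_map, List.mem_filter,
      Prod.mk.injEq] at h
    obtain ⟨a, ha, b, ⟨hb, -⟩, rfl, rfl⟩ := h
    rw [length_code_pair, length_code_nat, length_code_nat]
    change a < n at ha
    change b < n at hb
    simp only
    omega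
  have h2 : (gadget C).2.length ≤ n * n := by
    rw [hE]
    unfold edges
    rw [List.length_flatMap]
    refine (List.sum_le_card_nsmul _ n ?_).trans ?_
    · intro x hx
      obtain ⟨i, -, rfl⟩ := List.mem_map.1 hx
      rw [List.length_map]
      refine (List.length_filter_le _ _).trans ?_
      rw [List.length_range]
      exact le_rfl
    · rw [List.length_map, List.length_range, smul_eq_mul]
      exact le_rfl
  have h3 := code_list_le (3 * n + 1) (gadget C).2 h1
  have h4 : (2 * (3 * n + 1) + 1) * (gadget C).2.length ≤ (2 * (3 * n + 1) + 1) * (n * n) :=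
    Nat.mul_le_mul_left _ h2
  omega

lemma eval_mono (P : Polynomial ℕ) {a b : ℕ} (h : a ≤ b) : P.eval a ≤ P.eval b := by
  simp only [Polynomial.eval_eq_sum, Polynomial.sum]
  exact Finset.sum_le_sum fun i _ => Nat.mul_le_mul_left _ (Nat.pow_le_pow_left h i)

/-! ### The four statements -/

open Pool.Agent.Helper95.ThetaGap Pool.Agent.Helper92.Theta in
theorem part1 (N : ℕ) : ∃ n ≤ 4560 + 1000 * N, ∃ G : SimpleGraph (Fin n),
    (fun _ => 1 / 8) ∉ NoShortCertificates.TH G ∧
    (fun _ => (1 - (1 / 2) ^ 2 ^ N) / 8) ∈ NoShortCertificates.TH G ∧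
    ∀ (w : Fin n → ℤ) (b : ℤ), Separates G w b → 2 ^ 2 ^ N ≤ ∑ i, w i := by
  have h0 : 0 < 1 - ((1 : ℝ) / 2) ^ 2 ^ N := by
    have : ((1 : ℝ) / 2) ^ 2 ^ N < 1 :=
      pow_lt_one₀ (by norm_num) (by norm_num) (by positivity)
    linarith
  refine ⟨(gadget (nearC N)).1, (card_near N).le,
    NoShortCertificates.graphOf _ (gadget (nearC N)).2,
    near_not_mem N, near_mem N h0, fun w b hs => ?_⟩
  exact sep_large (near_mem N h0) w b hs.1 hs.2

open Pool.Agent.Helper95.ThetaGap Pool.Agent.Helper92.Theta in
theorem part2 (N : ℕ) : ∃ n ≤ 5040 + 3500 * N, ∃ G : SimpleGraph (Fin n),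
    (∃ q, RatWitness G q) ∧
    ∀ Y, Witness G (fun _ => 1 / 8) Y → ∀ D : ℕ, 0 < D → (∀ a b, ∃ k : ℤ, (D : ℝ) * Y a b = k) →
      2 ^ 2 ^ N ≤ D := by
  refine ⟨(gadget (bigC N)).1, (card_big N).le,
    NoShortCertificates.graphOf _ (gadget (bigC N)).2, ?_, ?_⟩
  · obtain ⟨Y, hq, h1, h2, h3, h4⟩ := big_mem N
    choose q hq using hq
    refine ⟨q, ?_⟩
    have : (Matrix.map q fun x => (x : ℝ)) = Y := by
      ext a b
      exact (hq a b).symm
    unfold RatWitness
    rw [this]
    exact ⟨h1, h2, h3, h4⟩
  · rintro Y ⟨h1, h2, h3, h4⟩ D hD hDY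
    exact big_large N Y h1 h2 h3 h4 D hD hDY

lemma den_le {z : BInt × List Bool} {m : List (List (BInt × List Bool))} {r : List (BInt × List Bool)}
    (hr : r ∈ m) (hz : z ∈ r) : z.2.length ≤ (code m).length := by
  have h1 := length_le_code z.2
  have h2 := length_code_pair z
  have h3 := code_le_of_mem hz
  have h4 := code_le_of_mem hr
  omega

lemma coef_le (w : List BInt) (i : ℕ) : coef w i ≤ 2 ^ (code w).length := by
  unfold coef
  rcases h : w[i]? with _ | z
  · simp only [Option.getD_none, ival, bval, cond_true]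
    positivity
  · have hz : z ∈ w := List.mem_of_getElem? h
    have h1 := length_le_code z.2
    have h2 := length_code_pair z
    have h3 := code_le_of_mem hz
    have h4 : z.2.length ≤ (code w).length := by omega
    have h5 := bval_lt z.2
    have h6 : bval z.2 ≤ 2 ^ (code w).length :=
      h5.le.trans (Nat.pow_le_pow_right (by norm_num) h4)
    have h7 : ((bval z.2 : ℕ) : ℤ) ≤ 2 ^ (code w).length := by exact_mod_cast h6
    simp only [Option.getD_some, ival]
    cases z.1
    · simp only [cond_false]
      have : (0 : ℤ) ≤ (bval z.2 : ℤ) := Int.natCast_nonneg _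
      have : (0 : ℤ) ≤ 2 ^ (code w).length := by positivity
      omega
    · simp only [cond_true]
      exact h7

/-- A polynomial bound for the length of the code of a graph with `n` vertices. -/
noncomputable def RP : Polynomial ℕ :=
  2 * Polynomial.X + 1 + (2 * (3 * Polynomial.X + 1) + 1) * (Polynomial.X * Polynomial.X)

lemma eval_RP (n : ℕ) : RP.eval n = 2 * n + 1 + (2 * (3 * n + 1) + 1) * (n * n) := by
  unfold RP
  simp

open Pool.Agent.Helper95.ThetaGap Pool.Agent.Helper92.Theta in
theorem part3 : ¬ ∃ f : ℕ × List (ℕ × ℕ) → List BInt × BInt, PolyTime f ∧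
    ∀ I, (fun _ => 1 / 8) ∉ NoShortCertificates.TH (NoShortCertificates.graphOf I.1 I.2) →
      Separates (NoShortCertificates.graphOf I.1 I.2) (fun i => coef (f I).1 i)
        (NoShortCertificates.ival (f I).2) := by
  rintro ⟨f, ⟨hf⟩, h⟩
  obtain ⟨P, hP⟩ := polyTime_len hf
  obtain ⟨N, hN⟩ := exists_lt_pow ((4560 + 1000 * Polynomial.X) +
    P.comp (RP.comp (4560 + 1000 * Polynomial.X)))
  have e1 : ((4560 + 1000 * Polynomial.X : Polynomial ℕ)).eval N = 4560 + 1000 * N := by simp
  rw [Polynomial.eval_add, Polynomial.eval_comp, Polynomial.eval_comp, e1] at hN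
  set I := gadget (nearC N) with hI
  have hn : I.1 = 4560 + 1000 * N := card_near N
  have hs := h I (near_not_mem N)
  have h0 : 0 < 1 - ((1 : ℝ) / 2) ^ 2 ^ N := by
    have : ((1 : ℝ) / 2) ^ 2 ^ N < 1 :=
      pow_lt_one₀ (by norm_num) (by norm_num) (by positivity)
    linarith
  have h1 := sep_large (near_mem N h0) _ _ hs.1 hs.2
  set ℓ := (code (f I)).length with hℓ
  have h2 : ℓ ≤ P.eval (RP.eval (4560 + 1000 * N)) := by
    refine (hP I).trans (eval_mono P ?_)
    rw [eval_RP, ← hn]
    exact length_code_gadget (nearC N)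
  have h3 : ∀ i : Fin I.1, coef (f I).1 i ≤ 2 ^ ℓ := by
    intro i
    refine (coef_le _ _).trans ?_
    have := length_code_pair (f I)
    exact pow_le_pow_right₀ (by norm_num) (by omega)
  have h4 : ∑ i : Fin I.1, coef (f I).1 i ≤ I.1 * 2 ^ ℓ := by
    refine (Finset.sum_le_sum fun i _ => h3 i).trans ?_
    simp
  have h5 : (2 : ℤ) ^ 2 ^ N ≤ 2 ^ (I.1 + ℓ) := by
    refine (h1.trans h4).trans ?_
    rw [pow_add]
    have h6 : (I.1 : ℤ) ≤ 2 ^ I.1 := by exact_mod_cast Nat.lt_two_pow_self.le
    exact mul_le_mul_of_nonneg_right h6 (by positivity)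
  have h6 : 2 ^ N ≤ I.1 + ℓ := by
    have h7 : (2 : ℕ) ^ 2 ^ N ≤ 2 ^ (I.1 + ℓ) := by exact_mod_cast h5
    exact (Nat.pow_le_pow_iff_right (by norm_num)).1 h7
  omega

open Pool.Agent.Helper95.ThetaGap Pool.Agent.Helper92.Theta in
theorem part4 : ¬ ∃ f : ℕ × List (ℕ × ℕ) → List (List (BInt × List Bool)), PolyTime f ∧
    ∀ I, (∃ q, RatWitness (NoShortCertificates.graphOf I.1 I.2) q) →
      RatWitness (NoShortCertificates.graphOf I.1 I.2) (matOf I.1 (f I)) := by
  rintro ⟨f, ⟨hf⟩, h⟩
  obtain ⟨P, hP⟩ := polyTime_len hf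
  obtain ⟨N, hN⟩ := exists_lt_pow (P.comp (RP.comp (5040 + 3500 * Polynomial.X)) *
    (((5040 + 3500 * Polynomial.X) + 1) * ((5040 + 3500 * Polynomial.X) + 1)))
  have e1 : ((5040 + 3500 * Polynomial.X : Polynomial ℕ)).eval N = 5040 + 3500 * N := by simp
  rw [Polynomial.eval_mul, Polynomial.eval_mul, Polynomial.eval_add, Polynomial.eval_one,
    Polynomial.eval_comp, Polynomial.eval_comp, e1] at hN
  set I := gadget (bigC N) with hI
  have hn : I.1 = 5040 + 3500 * N := card_big N
  have hw : RatWitness (NoShortCertificates.graphOf I.1 I.2) (matOf I.1 (f I)) := by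
    refine h I ?_
    obtain ⟨Y, hq, h1, h2, h3, h4⟩ := big_mem N
    choose q hq using hq
    refine ⟨q, ?_⟩
    have : (Matrix.map q fun x => (x : ℝ)) = Y := by
      ext a b
      exact (hq a b).symm
    unfold RatWitness
    rw [this]
    exact ⟨h1, h2, h3, h4⟩
  obtain ⟨w1, w2, w3, w4⟩ := hw
  set ℓ := (code (f I)).length with hℓ
  have h2 : ℓ ≤ P.eval (RP.eval (5040 + 3500 * N)) := by
    refine (hP I).trans (eval_mono P ?_)
    rw [eval_RP, ← hn]
    exact length_code_gadget (bigC N)
  -- the common denominator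
  set den : Option (Fin I.1) → Option (Fin I.1) → List Bool := fun a b =>
    (((((f I)[pos a]?).getD [])[pos b]?).getD ((true, []), [])).2 with hden
  set d : Option (Fin I.1) × Option (Fin I.1) → ℕ := fun x =>
    if NoShortCertificates.bval (den x.1 x.2) = 0 then 1
    else NoShortCertificates.bval (den x.1 x.2) with hd
  have hdlen : ∀ a b, (den a b).length ≤ ℓ := by
    intro a b
    simp only [hden]
    rcases h5 : (f I)[pos a]? with _ | r
    · simp
    · rcases h6 : r[pos b]? with _ | z
      · simp [h6]
      · simp only [Option.getD_some, h6]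
        exact den_le (List.mem_of_getElem? h5) (List.mem_of_getElem? h6)
  have hdle : ∀ x, d x ≤ 2 ^ ℓ := by
    intro x
    simp only [hd]
    split_ifs
    · exact Nat.one_le_two_pow
    · exact (NoShortCertificates.bval_lt _).le.trans
        (Nat.pow_le_pow_right (by norm_num) (hdlen _ _))
  have hdpos : ∀ x, 0 < d x := by
    intro x
    simp only [hd]
    split_ifs with h5
    · exact one_pos
    · exact Nat.pos_of_ne_zero h5
  have hD : 2 ^ 2 ^ N ≤ ∏ x, d x := by
    refine big_large N _ w1 w2 w3 w4 (∏ x, d x) (Finset.prod_pos fun x _ => hdpos x) ?_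
    intro a b
    obtain ⟨r, hr⟩ := Finset.dvd_prod_of_mem d (Finset.mem_univ (a, b))
    rw [hr]
    by_cases h5 : NoShortCertificates.bval (den a b) = 0
    · refine ⟨0, ?_⟩
      have h6 : matOf I.1 (f I) a b = 0 := by
        unfold matOf
        simp only [hden] at h5
        rw [h5]
        simp
      simp only [Matrix.map_apply, h6]
      simp
    · refine ⟨r * NoShortCertificates.ival
        (((((f I)[pos a]?).getD [])[pos b]?).getD ((true, []), [])).1, ?_⟩
      have h6 : d (a, b) = NoShortCertificates.bval (den a b) := by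
        simp only [hd]
        rw [if_neg h5]
      have h7 : (NoShortCertificates.bval (den a b) : ℝ) ≠ 0 := by exact_mod_cast h5
      rw [h6]
      simp only [Matrix.map_apply, matOf]
      simp only [hden] at h7 ⊢
      push_cast
      field_simp
  have hD2 : ∏ x, d x ≤ 2 ^ (ℓ * ((I.1 + 1) * (I.1 + 1))) := by
    refine (Finset.prod_le_pow_card _ _ _ fun x _ => hdle x).trans ?_
    rw [← pow_mul, Finset.card_univ, Fintype.card_prod, Fintype.card_option, Fintype.card_fin]
  have h6 : 2 ^ N ≤ ℓ * ((I.1 + 1) * (I.1 + 1)) :=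
    (Nat.pow_le_pow_iff_right (by norm_num)).1 (hD.trans hD2)
  have h7 : ℓ * ((I.1 + 1) * (I.1 + 1)) ≤ P.eval (RP.eval (5040 + 3500 * N)) *
      ((5040 + 3500 * N + 1) * (5040 + 3500 * N + 1)) := by
    rw [hn]
    exact Nat.mul_le_mul_right _ h2
  omega

end Pool.Agent.Helper95.Cert.NoShortCertificates
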